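import Pool.Agent.Helper89.EX.Defs

/-!
# MP_5176ab_co, module DC: decomposition into homogeneous partite families
-/

set_option autoImplicit false

namespace EX

open Finset SimpleGraph

open scoped Classical

noncomputable section

/-- the number of colourings is at most `r ^ r` times the number of those that fit to `e` -/
lemma part_count (r n : ℕ) (e : Fin r → Fin n) (he : Function.Injective e) :
    r ^ n ≤ (univ.filter fun P : Fin n → Fin r => ∀ i, P (e i) = i).card * r ^ r := by
  have h1 : (univ : Finset (Fin n → Fin r)).card ≤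
      ((univ.filter fun P : Fin n → Fin r => ∀ i, P (e i) = i) ×ˢ
        (univ : Finset (Fin r → Fin r))).card := by
    refine Finset.card_le_card_of_injOn
      (fun P => (fun v => if h : ∃ i, e i = v then h.choose else P v, fun i => P (e i))) ?_ ?_
    · intro P _
      simp only [mem_coe, mem_product, mem_filter, mem_univ, true_and, and_true]
      intro i
      have h : ∃ j, e j = e i := ⟨i, rfl⟩
      rw [dif_pos h]
      exact he h.choose_spec
    · intro P _ P' _ hPP
      simp only [Prod.mk.injEq] at hPP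
      obtain ⟨h1, h2⟩ := hPP
      funext v
      by_cases h : ∃ i, e i = v
      · obtain ⟨i, rfl⟩ := h
        exact congrFun h2 i
      · have h3 := congrFun h1 v
        simp only [dif_neg h] at h3
        exact h3
  rw [Finset.card_product] at h1
  simpa using h1

theorem part_exists (r n : ℕ) (hr : 1 ≤ r) (F : Finset (Fin r → Fin n))
    (hF : ∀ e ∈ F, Function.Injective e) : ∃ P : Fin n → Fin r,
    F.card ≤ r ^ r * (F.filter fun e => ∀ i, P (e i) = i).card := by
  by_contra hcon
  push Not at hcon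
  have h1 : ∑ P : Fin n → Fin r, r ^ r * (F.filter fun e => ∀ i, P (e i) = i).card <
      ∑ _P : Fin n → Fin r, F.card := by
    refine Finset.sum_lt_sum_of_nonempty ?_ fun P _ => hcon P
    exact ⟨fun _ => ⟨0, hr⟩, mem_univ _⟩
  have h2 : ∑ P : Fin n → Fin r, (F.filter fun e => ∀ i, P (e i) = i).card =
      ∑ e ∈ F, (univ.filter fun P : Fin n → Fin r => ∀ i, P (e i) = i).card := by
    simp only [Finset.card_filter]
    exact Finset.sum_comm
  rw [← Finset.mul_sum, h2] at h1
  simp only [sum_const, card_univ, Fintype.card_fun, Fintype.card_fin, smul_eq_mul] at h1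
  have h3 : ∑ _e ∈ F, r ^ n ≤
      ∑ e ∈ F, (univ.filter fun P : Fin n → Fin r => ∀ i, P (e i) = i).card * r ^ r :=
    Finset.sum_le_sum fun e he => part_count r n e (hF e he)
  rw [← Finset.sum_mul] at h3
  simp only [sum_const, smul_eq_mul] at h3
  rw [mul_comm (r ^ r), mul_comm (r ^ n)] at h1
  omega

/-- `decomp` from the lemma on homogeneous subfamilies -/
theorem decomp_of (r s : ℕ) (hom : ∃ N : ℕ, 0 < N ∧ ∀ (V : Type) (F : Finset (Fin r → V)),
      ∃ F' ⊆ F, ∃ J : Finset (Finset (Fin r)), Hom s F' J ∧ F.card ≤ N * F'.card)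
    (hr : 1 ≤ r) (δ : ℝ) (hδ : 0 < δ) : ∃ m : ℕ, ∀ (n : ℕ)
    (F : Finset (Fin r → Fin n)), (∀ e ∈ F, Function.Injective e) →
    ∃ (F' : Fin m → Finset (Fin r → Fin n)) (P : Fin m → Fin n → Fin r)
      (J : Fin m → Finset (Finset (Fin r))),
      (∀ j, F' j ⊆ F) ∧ (∀ i j, i ≠ j → Disjoint (F' i) (F' j)) ∧
      (∀ j, Hom s (F' j) (J j)) ∧ (∀ j, ∀ e ∈ F' j, ∀ i, P j (e i) = i) ∧
      (F.card : ℝ) ≤ ∑ j, ((F' j).card : ℝ) + δ * F.card := by
  obtain ⟨N, hN, hom⟩ := hom
  set M : ℝ := (r : ℝ) ^ r * N with hM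
  have hM1 : 1 ≤ M := by
    have h1 : (1 : ℝ) ≤ (r : ℝ) ^ r := one_le_pow₀ (by exact_mod_cast hr)
    have h2 : (1 : ℝ) ≤ N := by exact_mod_cast hN
    nlinarith
  set q : ℝ := 1 - 1 / M with hq
  have hq0 : 0 ≤ q := by
    have : 1 / M ≤ 1 := by rw [div_le_one (by linarith)]; exact hM1
    linarith
  have hq1 : q < 1 := by
    have : 0 < 1 / M := by positivity
    linarith
  -- one step
  have step : ∀ (n : ℕ) (F : Finset (Fin r → Fin n)), (∀ e ∈ F, Function.Injective e) →
      ∃ (F0 : Finset (Fin r → Fin n)) (P : Fin n → Fin r) (J : Finset (Finset (Fin r))),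
        F0 ⊆ F ∧ Hom s F0 J ∧ (∀ e ∈ F0, ∀ i, P (e i) = i) ∧
        ((F \ F0).card : ℝ) ≤ q * F.card := by
    intro n F hF
    obtain ⟨P, hP⟩ := part_exists r n hr F hF
    obtain ⟨F0, hF0, J, hJ, hc⟩ := hom (Fin n) (F.filter fun e => ∀ i, P (e i) = i)
    have hsub : F0 ⊆ F := hF0.trans (filter_subset _ _)
    refine ⟨F0, P, J, hsub, hJ, fun e he => (mem_filter.mp (hF0 he)).2, ?_⟩
    have h1 : (F.card : ℝ) ≤ M * F0.card := by
      have h2 : F.card ≤ r ^ r * (N * F0.card) := hP.trans (Nat.mul_le_mul_left _ hc)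
      have h3 : (F.card : ℝ) ≤ ((r ^ r * (N * F0.card) : ℕ) : ℝ) := by exact_mod_cast h2
      push_cast at h3
      rw [hM]
      linarith
    have h2 : ((F \ F0).card : ℝ) = F.card - F0.card := by
      rw [Finset.card_sdiff_of_subset hsub, Nat.cast_sub (Finset.card_le_card hsub)]
    rw [h2, hq]
    have h3 : (F.card : ℝ) / M ≤ F0.card := by
      rw [div_le_iff₀ (by linarith)]
      linarith
    have h4 : (1 - 1 / M) * (F.card : ℝ) = F.card - F.card / M := by ring
    linarith
  -- iteration
  have iter : ∀ (m n : ℕ) (F : Finset (Fin r → Fin n)), (∀ e ∈ F, Function.Injective e) →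
      ∃ (F' : Fin m → Finset (Fin r → Fin n)) (P : Fin m → Fin n → Fin r)
        (J : Fin m → Finset (Finset (Fin r))),
        (∀ j, F' j ⊆ F) ∧ (∀ i j, i ≠ j → Disjoint (F' i) (F' j)) ∧
        (∀ j, Hom s (F' j) (J j)) ∧ (∀ j, ∀ e ∈ F' j, ∀ i, P j (e i) = i) ∧
        (F.card : ℝ) ≤ ∑ j, ((F' j).card : ℝ) + q ^ m * F.card := by
    intro m
    induction m with
    | zero =>
      intro n F _
      exact ⟨Fin.elim0, Fin.elim0, Fin.elim0, fun j => j.elim0, fun j => j.elim0,
        fun j => j.elim0, fun j => j.elim0, by simp⟩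
    | succ m ih =>
      intro n F hF
      obtain ⟨F0, P0, J0, hs0, hh0, hp0, hc0⟩ := step n F hF
      obtain ⟨F', P, J, h1, h2, h3, h4, h5⟩ := ih n (F \ F0)
        fun e he => hF e (mem_sdiff.mp he).1
      refine ⟨Fin.cons F0 F', Fin.cons P0 P, Fin.cons J0 J, ?_, ?_, ?_, ?_, ?_⟩
      · intro j
        refine Fin.cases ?_ (fun j => ?_) j
        · simpa using hs0
        · simpa using (h1 j).trans sdiff_subset
      · have hd : ∀ j, Disjoint F0 (F' j) := fun j =>
          Finset.disjoint_of_subset_right (h1 j) Finset.disjoint_sdiff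
        intro i j
        refine Fin.cases ?_ (fun i => ?_) i
        · refine Fin.cases ?_ (fun j => ?_) j
          · intro h; exact absurd rfl h
          · intro _
            simpa using hd j
        · refine Fin.cases ?_ (fun j => ?_) j
          · intro _
            simpa using (hd i).symm
          · intro h
            simp only [Fin.cons_succ]
            exact h2 i j fun hij => h (by rw [hij])
      · intro j
        refine Fin.cases ?_ (fun j => ?_) j
        · simpa using hh0
        · simpa using h3 j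
      · intro j
        refine Fin.cases ?_ (fun j => ?_) j
        · simpa using hp0
        · simpa using h4 j
      · rw [Fin.sum_univ_succ]
        simp only [Fin.cons_zero, Fin.cons_succ]
        have h6 : (F.card : ℝ) = F0.card + (F \ F0).card := by
          rw [Finset.card_sdiff_of_subset hs0, Nat.cast_sub (Finset.card_le_card hs0)]
          ring
        have h7 : q ^ m * ((F \ F0).card : ℝ) ≤ q ^ (m + 1) * F.card := by
          calc q ^ m * ((F \ F0).card : ℝ) ≤ q ^ m * (q * F.card) :=
                mul_le_mul_of_nonneg_left hc0 (pow_nonneg hq0 m)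
            _ = q ^ (m + 1) * F.card := by ring
        linarith
  obtain ⟨m, hm⟩ := exists_pow_lt_of_lt_one hδ hq1
  refine ⟨m, fun n F hF => ?_⟩
  obtain ⟨F', P, J, h1, h2, h3, h4, h5⟩ := iter m n F hF
  refine ⟨F', P, J, h1, h2, h3, h4, h5.trans ?_⟩
  have : q ^ m * (F.card : ℝ) ≤ δ * F.card :=
    mul_le_mul_of_nonneg_right hm.le (Nat.cast_nonneg _)
  linarith

end

end EX
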